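import Pool.Agent.W792.WA.Stm2
import Pool.Agent.W64.WAMzp

/-!
# WA-ZFW: dependence of the mean of `|Zf m - Zf m'|` on the law
-/

set_option autoImplicit false

namespace Pool.Agent.W304.WA.Zfw

open MeasureTheory Pool.Agent.W792.LL Pool.Agent.W792.WA
open scoped ENNReal

theorem mp_upd {Γ : Type} [DecidableEq Γ] (ν : Measure ℝ) [IsProbabilityMeasure ν] (x : Γ) :
    (ν.prod (Measure.infinitePi fun _ : Γ => ν)).map
      (fun p : ℝ × (Γ → ℝ) => Function.update p.2 x p.1) = Measure.infinitePi fun _ : Γ => ν := by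
  have hm : Measurable (fun p : ℝ × (Γ → ℝ) => Function.update p.2 x p.1) := by
    refine measurable_pi_lambda _ fun y => ?_
    by_cases hy : y = x
    · subst hy
      simpa using measurable_fst
    · simp only [Function.update_of_ne hy]
      exact (measurable_pi_apply y).comp measurable_snd
  refine Measure.eq_infinitePi _ fun s t ht => ?_
  rw [Measure.map_apply hm (.pi s.countable_toSet fun _ _ => ht _)]
  have h1 : (fun p : ℝ × (Γ → ℝ) => Function.update p.2 x p.1) ⁻¹' ((s : Set Γ).pi t)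
      = (if x ∈ s then t x else Set.univ) ×ˢ (((s.erase x : Finset Γ) : Set Γ).pi t) := by
    ext p
    simp only [Set.mem_preimage, Set.mem_pi, Finset.mem_coe, Set.mem_prod, Finset.mem_erase]
    constructor
    · intro h
      refine ⟨?_, fun y hy => ?_⟩
      · split_ifs with hx
        · have := h x hx
          rwa [Function.update_self] at this
        · trivial
      · have := h y hy.2
        rwa [Function.update_of_ne hy.1] at this
    · rintro ⟨h, h'⟩ y hy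
      by_cases hyx : y = x
      · subst hyx
        rw [if_pos hy] at h
        rwa [Function.update_self]
      · rw [Function.update_of_ne hyx]
        exact h' y ⟨hyx, hy⟩
  rw [h1, Measure.prod_prod, Measure.infinitePi_pi _ (fun i _ => ht i)]
  split_ifs with h
  · rw [Finset.mul_prod_erase s (fun i => ν (t i)) h]
  · rw [measure_univ, one_mul, Finset.erase_eq_of_notMem h]

theorem lint_upd {Γ : Type} [DecidableEq Γ] (ν : Measure ℝ) [IsProbabilityMeasure ν] (x : Γ)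
    (f : ℝ → ℝ≥0∞) (g : (Γ → ℝ) → ℝ≥0∞) (hf : Measurable f) (hg : Measurable g)
    (hgx : ∀ u t, g (Function.update u x t) = g u) :
    ∫⁻ u, f (u x) * g u ∂(Measure.infinitePi fun _ : Γ => ν)
      = (∫⁻ t, f t ∂ν) * ∫⁻ u, g u ∂(Measure.infinitePi fun _ : Γ => ν) := by
  have hm : Measurable (fun p : ℝ × (Γ → ℝ) => Function.update p.2 x p.1) := by
    refine measurable_pi_lambda _ fun y => ?_
    by_cases hy : y = x
    · subst hy
      simpa using measurable_fst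
    · simp only [Function.update_of_ne hy]
      exact (measurable_pi_apply y).comp measurable_snd
  have hfg : Measurable fun u : Γ → ℝ => f (u x) * g u :=
    (hf.comp (measurable_pi_apply x)).mul hg
  conv_lhs => rw [← mp_upd ν x]
  rw [lintegral_map hfg hm]
  simp only [Function.update_self, hgx]
  exact lintegral_prod_mul hf.aemeasurable hg.aemeasurable

/-- sum of squares -/
theorem hasSum_sq {Γ : Type} (w : l2 Γ) : HasSum (fun x => ‖w x‖ ^ 2) (‖w‖ ^ 2) := by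
  have h := lp.hasSum_norm (p := 2) (by norm_num) w
  simpa using h

theorem ofReal_sq {Γ : Type} (w : l2 Γ) :
    ENNReal.ofReal (‖w‖ ^ 2) = ∑' x, ENNReal.ofReal (‖w x‖ ^ 2) := by
  have h := hasSum_sq w
  rw [← h.tsum_eq]
  exact ENNReal.ofReal_tsum_of_nonneg (fun _ => by positivity) h.summable

theorem norm_dl {d : ℕ} (x : Fin d → ℤ) : ‖(dl x : l2 (Fin d → ℤ))‖ = 1 := by
  unfold dl
  rw [lp.norm_single (by norm_num)]
  simp

section ops

variable {d : ℕ} {q : ℝ}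

theorem rsv_spec (hS : S_CSYM) (hq1 : q < 1) (m : C(UnitAddTorus (Fin d), ℂ)) (hm : ‖m‖ ≤ q)
    (v : (Fin d → ℤ) → ℝ) :
    ‖rsv m v‖ ≤ 1 / (1 - q) ∧ (1 - opr m * dc v) * rsv m v = 1 ∧
      rsv m v * (1 - opr m * dc v) = 1 := by
  obtain ⟨h1, h2, h3⟩ := (hS (Measure.dirac 0) d m (lt_of_le_of_lt hm hq1)).1 v
  refine ⟨h1.trans ?_, h2, h3⟩
  apply one_div_le_one_div_of_le <;> linarith

theorem rsv_meas (hS : S_CSYM) (hq1 : q < 1) (m : C(UnitAddTorus (Fin d), ℂ)) (hm : ‖m‖ ≤ q)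
    (u : l2 (Fin d → ℤ)) (x : Fin d → ℤ) : Measurable fun v => (rsv m v u) x :=
  ((hS (Measure.dirac 0) d m (lt_of_le_of_lt hm hq1)).2.1 u x).1

theorem res_id (hS : S_CSYM) (hq1 : q < 1) (m : C(UnitAddTorus (Fin d), ℂ)) (hm : ‖m‖ ≤ q)
    (v v' : (Fin d → ℤ) → ℝ) (u : l2 (Fin d → ℤ)) :
    rsv m v u = rsv m v' u + rsv m v (opr m ((dc v - dc v') (rsv m v' u))) := by
  obtain ⟨-, -, h3⟩ := rsv_spec hS hq1 m hm v
  obtain ⟨-, h2', -⟩ := rsv_spec hS hq1 m hm v'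
  have h : rsv m v = rsv m v' + rsv m v * (opr m * ((dc v - dc v') * rsv m v')) := by
    have e1 : rsv m v = rsv m v * ((1 - opr m * dc v') * rsv m v') := by rw [h2', mul_one]
    have e2 : rsv m v' = (rsv m v * (1 - opr m * dc v)) * rsv m v' := by rw [h3, one_mul]
    have e3 : rsv m v * ((1 - opr m * dc v') * rsv m v')
        = (rsv m v * (1 - opr m * dc v)) * rsv m v'
          + rsv m v * (opr m * ((dc v - dc v') * rsv m v')) := by noncomm_ring
    rw [← e2] at e3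
    rw [← e3]
    exact e1
  have h4 := congrArg (fun T : l2 (Fin d → ℤ) →L[ℂ] l2 (Fin d → ℤ) => T u) h
  exact h4

theorem dc_apply (hD : S_DIA) (hCay : S_CAY) (v : (Fin d → ℤ) → ℝ) (u : l2 (Fin d → ℤ))
    (x : Fin d → ℤ) : dc v u x = cay (v x) * u x :=
  (hD (Fin d → ℤ) (fun x => cay (v x)) (fun x => (hCay.1 (v x)).le)).1 u x

theorem dcs_apply (hD : S_DIA) (hCay : S_CAY) (v v' : (Fin d → ℤ) → ℝ) (u : l2 (Fin d → ℤ))
    (x : Fin d → ℤ) : (dc v - dc v') u x = (cay (v x) - cay (v' x)) * u x := by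
  have h : (dc v - dc v') u x = dc v u x - dc v' u x := rfl
  rw [h, dc_apply hD hCay, dc_apply hD hCay]
  ring

theorem one_site (hS : S_CSYM) (hO : S_OPR) (hD : S_DIA) (hCay : S_CAY) (hq0 : 0 ≤ q)
    (hq1 : q < 1) (m : C(UnitAddTorus (Fin d), ℂ)) (hm : ‖m‖ ≤ q) (v v' : (Fin d → ℤ) → ℝ)
    (x : Fin d → ℤ) (hv : ∀ y, y ≠ x → v y = v' y) (u : l2 (Fin d → ℤ)) :
    ‖rsv m v u x‖ ≤ (1 + q) / (1 - q) * ‖rsv m v' u x‖ := by
  have hq : 0 < 1 - q := by linarith
  have h1 := res_id hS hq1 m hm v v' u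
  have h2 : (dc v - dc v') (rsv m v' u)
      = ((cay (v x) - cay (v' x)) * rsv m v' u x) • (dl x : l2 (Fin d → ℤ)) := by
    ext y
    rw [dcs_apply hD hCay]
    by_cases hy : y = x
    · subst hy
      simp [dl]
    · rw [hv y hy, sub_self, zero_mul]
      simp [dl, lp.coeFn_smul, Pi.single_eq_of_ne hy]
  rw [h2] at h1
  have h3 : rsv m v u x = rsv m v' u x
      + (cay (v x) - cay (v' x)) * rsv m v' u x * (rsv m v (opr m (dl x))) x := by
    have h4 := congrArg (fun w : l2 (Fin d → ℤ) => w x) h1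
    simp only [map_smul, lp.coeFn_add, lp.coeFn_smul, Pi.add_apply, Pi.smul_apply,
      smul_eq_mul] at h4
    exact h4
  have h5 : ‖(rsv m v (opr m (dl x))) x‖ ≤ q / (1 - q) := by
    have e1 : ‖(rsv m v (opr m (dl x))) x‖ ≤ ‖rsv m v (opr m (dl x))‖ :=
      lp.norm_apply_le_norm (by norm_num) _ x
    have e2 : ‖rsv m v (opr m (dl x))‖ ≤ ‖rsv m v‖ * ‖opr m (dl x)‖ :=
      ContinuousLinearMap.le_opNorm _ _
    have e3 : ‖opr m (dl x)‖ ≤ ‖opr m‖ * ‖(dl x : l2 (Fin d → ℤ))‖ :=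
      ContinuousLinearMap.le_opNorm _ _
    rw [norm_dl, mul_one] at e3
    have e4 : ‖opr m‖ ≤ q := ((hO d m m).2.1).trans hm
    have e5 := (rsv_spec hS hq1 m hm v).1
    calc ‖(rsv m v (opr m (dl x))) x‖ ≤ ‖rsv m v‖ * ‖opr m (dl x)‖ := e1.trans e2
      _ ≤ (1 / (1 - q)) * q :=
        mul_le_mul e5 (e3.trans e4) (norm_nonneg _) (by positivity)
      _ = q / (1 - q) := by ring
  have h6 : ‖cay (v x) - cay (v' x)‖ ≤ 2 := by
    calc ‖cay (v x) - cay (v' x)‖ ≤ ‖cay (v x)‖ + ‖cay (v' x)‖ := norm_sub_le _ _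
      _ = 2 := by rw [hCay.1, hCay.1]; norm_num
  have h7 : ‖(cay (v x) - cay (v' x)) * rsv m v' u x * (rsv m v (opr m (dl x))) x‖
      ≤ 2 * ‖rsv m v' u x‖ * (q / (1 - q)) := by
    rw [norm_mul, norm_mul]
    exact mul_le_mul (mul_le_mul_of_nonneg_right h6 (norm_nonneg _)) h5 (norm_nonneg _)
      (by positivity)
  calc ‖rsv m v u x‖ ≤ ‖rsv m v' u x‖
        + ‖(cay (v x) - cay (v' x)) * rsv m v' u x * (rsv m v (opr m (dl x))) x‖ := by
        rw [h3]; exact norm_add_le _ _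
    _ ≤ ‖rsv m v' u x‖ + 2 * ‖rsv m v' u x‖ * (q / (1 - q)) := by linarith
    _ = (1 + q) / (1 - q) * ‖rsv m v' u x‖ := by field_simp; ring

theorem zf_diff (hS : S_CSYM) (hO : S_OPR)
    (hq1 : q < 1) (m : C(UnitAddTorus (Fin d), ℂ)) (hm : ‖m‖ ≤ q) (v v' : (Fin d → ℤ) → ℝ) :
    ‖Zf m (fun x => cay (v x)) - Zf m (fun x => cay (v' x))‖
      ≤ 1 / (1 - q) * ‖(dc v - dc v') (rsv m v' (dl 0))‖ := by
  have hq : 0 < 1 - q := by linarith
  have e : Zf m (fun x => cay (v x)) - Zf m (fun x => cay (v' x))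
      = (rsv m v (opr m ((dc v - dc v') (rsv m v' (dl 0))))) 0 := by
    have h1 := res_id hS hq1 m hm v v' (dl 0)
    have h4 := congrArg (fun w : l2 (Fin d → ℤ) => w 0) h1
    simp only [lp.coeFn_add, Pi.add_apply] at h4
    have e1 : Zf m (fun x => cay (v x)) = rsv m v (dl 0) 0 := rfl
    have e2 : Zf m (fun x => cay (v' x)) = rsv m v' (dl 0) 0 := rfl
    rw [e1, e2, h4]
    ring
  rw [e]
  set w := (dc v - dc v') (rsv m v' (dl 0)) with hw
  have e1 : ‖(rsv m v (opr m w)) 0‖ ≤ ‖rsv m v (opr m w)‖ :=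
    lp.norm_apply_le_norm (by norm_num) _ 0
  have e2 : ‖rsv m v (opr m w)‖ ≤ ‖rsv m v‖ * ‖opr m w‖ :=
    ContinuousLinearMap.le_opNorm _ _
  have e3 : ‖opr m w‖ ≤ ‖opr m‖ * ‖w‖ := ContinuousLinearMap.le_opNorm _ _
  have e4 : ‖opr m‖ ≤ 1 := ((hO d m m).2.1).trans (hm.trans hq1.le)
  have e5 := (rsv_spec hS hq1 m hm v).1
  calc ‖(rsv m v (opr m w)) 0‖ ≤ ‖rsv m v‖ * ‖opr m w‖ := e1.trans e2
    _ ≤ (1 / (1 - q)) * (1 * ‖w‖) :=
      mul_le_mul e5 (e3.trans (mul_le_mul_of_nonneg_right e4 (norm_nonneg _)))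
        (norm_nonneg _) (by positivity)
    _ = 1 / (1 - q) * ‖w‖ := by ring

end ops

/-- the uniform law -/
noncomputable def lb : Measure ℝ := volume.restrict (Set.Ioc (0 : ℝ) 1)

instance : IsProbabilityMeasure lb := ⟨by simp [lb]⟩

/-- independent uniform variables -/
noncomputable def PP (Γ : Type) : Measure (Γ → ℝ) := Measure.infinitePi fun _ : Γ => lb

instance (Γ : Type) : IsProbabilityMeasure (PP Γ) := by unfold PP; infer_instance

theorem Pn_qlaw (X : MX) (Γ : Type) : Pn (qlaw X) Γ = (PP Γ).map (fun u x => X.1 (u x)) := by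
  unfold Pn PP
  exact (Measure.infinitePi_map_pi (fun _ : Γ => lb) (f := fun _ => X.1) (fun _ => X.2)).symm

theorem meas_comp (X : MX) (Γ : Type) : Measurable fun (u : Γ → ℝ) x => X.1 (u x) :=
  measurable_pi_lambda _ fun x => X.2.comp (measurable_pi_apply x)

theorem lint_cd (hCay : S_CAY) (X Y : MX) (τ : ℝ) (h : cd X Y ≤ τ ^ 2) :
    ∫⁻ t, ENNReal.ofReal (‖cay (X.1 t) - cay (Y.1 t)‖ ^ 2) ∂lb ≤ ENNReal.ofReal (τ ^ 2) := by
  have hm : Measurable fun t : ℝ => ‖cay (X.1 t) - cay (Y.1 t)‖ ^ 2 :=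
    (((hCay.2.1.measurable.comp X.2).sub (hCay.2.1.measurable.comp Y.2)).norm).pow_const 2
  have hb : ∀ t : ℝ, ‖‖cay (X.1 t) - cay (Y.1 t)‖ ^ 2‖ ≤ 4 := by
    intro t
    have h6 : ‖cay (X.1 t) - cay (Y.1 t)‖ ≤ 2 := by
      calc ‖cay (X.1 t) - cay (Y.1 t)‖ ≤ ‖cay (X.1 t)‖ + ‖cay (Y.1 t)‖ := norm_sub_le _ _
        _ = 2 := by rw [hCay.1, hCay.1]; norm_num
    rw [Real.norm_of_nonneg (by positivity)]
    nlinarith [norm_nonneg (cay (X.1 t) - cay (Y.1 t))]
  have hi : Integrable (fun t : ℝ => ‖cay (X.1 t) - cay (Y.1 t)‖ ^ 2) lb :=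
    Integrable.of_bound hm.aestronglyMeasurable 4 (Filter.Eventually.of_forall hb)
  rw [← ofReal_integral_eq_lintegral_ofReal hi (Filter.Eventually.of_forall fun t => by positivity)]
  exact ENNReal.ofReal_le_ofReal h

theorem core (hS : S_CSYM) (hO : S_OPR) (hD : S_DIA) (hCay : S_CAY) {q : ℝ} (hq0 : 0 ≤ q)
    (hq1 : q < 1) (X Y : MX) (τ : ℝ) (hcd : cd X Y ≤ τ ^ 2) {d : ℕ}
    (m : C(UnitAddTorus (Fin d), ℂ)) (hm : ‖m‖ ≤ q) :
    ∫⁻ u, ENNReal.ofReal (‖(dc (fun x => X.1 (u x)) - dc (fun x => Y.1 (u x)))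
        (rsv m (fun x => Y.1 (u x)) (dl 0))‖ ^ 2) ∂(PP (Fin d → ℤ))
      ≤ ENNReal.ofReal ((τ * ((1 + q) / (1 - q)) ^ 2 / (1 - q)) ^ 2) := by
  classical
  have hq : 0 < 1 - q := by linarith
  set C1 : ℝ := (1 + q) / (1 - q) with hC1
  have hC1p : 0 ≤ C1 := by positivity
  have hcm : Measurable cay := hCay.2.1.measurable
  set G : (Fin d → ℤ) → ((Fin d → ℤ) → ℝ) → ℝ≥0∞ := fun x u =>
    ENNReal.ofReal (‖rsv m (fun y => Y.1 (u y)) (dl 0) x‖ ^ 2) with hG
  set F : ℝ → ℝ≥0∞ := fun t => ENNReal.ofReal (‖cay (X.1 t) - cay (Y.1 t)‖ ^ 2) with hF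
  have hFm : Measurable F :=
    ((((hcm.comp X.2).sub (hcm.comp Y.2)).norm).pow_const 2).ennreal_ofReal
  have hGm : ∀ x, Measurable (G x) := fun x =>
    ((((rsv_meas hS hq1 m hm (dl 0) x).comp (meas_comp Y _)).norm).pow_const 2).ennreal_ofReal
  have h1 : ∀ u : (Fin d → ℤ) → ℝ, ENNReal.ofReal (‖(dc (fun x => X.1 (u x))
        - dc (fun x => Y.1 (u x))) (rsv m (fun x => Y.1 (u x)) (dl 0))‖ ^ 2)
      = ∑' x, F (u x) * G x u := by
    intro u
    rw [ofReal_sq]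
    congr 1
    ext x
    rw [dcs_apply hD hCay, norm_mul, mul_pow, ENNReal.ofReal_mul (by positivity)]
  simp only [h1]
  have e0 : ∫⁻ u, ∑' x, F (u x) * G x u ∂(PP (Fin d → ℤ))
      = ∑' x, ∫⁻ u, F (u x) * G x u ∂(PP (Fin d → ℤ)) :=
    lintegral_tsum fun x => ((hFm.comp (measurable_pi_apply x)).mul (hGm x)).aemeasurable
  rw [e0]
  -- one term
  have h2 : ∀ x : Fin d → ℤ, ∫⁻ u, F (u x) * G x u ∂(PP (Fin d → ℤ))
      ≤ ENNReal.ofReal (C1 ^ 4 * τ ^ 2) * ∫⁻ u, G x u ∂(PP (Fin d → ℤ)) := by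
    intro x
    set g : ((Fin d → ℤ) → ℝ) → ℝ≥0∞ := fun u =>
      ENNReal.ofReal (C1 ^ 2) * ENNReal.ofReal
        (‖rsv m (Function.update (fun y => Y.1 (u y)) x 0) (dl 0) x‖ ^ 2) with hg
    have hupd : Measurable fun u : (Fin d → ℤ) → ℝ => Function.update (fun y => Y.1 (u y)) x 0 := by
      refine measurable_pi_lambda _ fun y => ?_
      by_cases hy : y = x
      · subst hy
        simp only [Function.update_self]
        exact measurable_const
      · simp only [Function.update_of_ne hy]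
        exact Y.2.comp (measurable_pi_apply y)
    have hgm : Measurable g := by
      refine Measurable.const_mul ?_ _
      exact ((((rsv_meas hS hq1 m hm (dl 0) x).comp hupd).norm).pow_const 2).ennreal_ofReal
    have hgx : ∀ u t, g (Function.update u x t) = g u := by
      intro u t
      have : Function.update (fun y => Y.1 (Function.update u x t y)) x (0 : ℝ)
          = Function.update (fun y => Y.1 (u y)) x 0 := by
        funext y
        by_cases hy : y = x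
        · subst hy
          simp
        · simp [Function.update_of_ne hy]
      simp only [hg, this]
    have hGg : ∀ u, G x u ≤ g u := by
      intro u
      have h3 := one_site hS hO hD hCay hq0 hq1 m hm (fun y => Y.1 (u y))
        (Function.update (fun y => Y.1 (u y)) x 0) x
        (fun y hy => by rw [Function.update_of_ne hy]) (dl 0)
      simp only [hG, hg]
      rw [← ENNReal.ofReal_mul (by positivity)]
      refine ENNReal.ofReal_le_ofReal ?_
      rw [← mul_pow]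
      exact pow_le_pow_left₀ (norm_nonneg _) h3 2
    have hgG : ∀ u, g u ≤ ENNReal.ofReal (C1 ^ 4) * G x u := by
      intro u
      have h3 := one_site hS hO hD hCay hq0 hq1 m hm (Function.update (fun y => Y.1 (u y)) x 0)
        (fun y => Y.1 (u y)) x (fun y hy => by rw [Function.update_of_ne hy]) (dl 0)
      simp only [hG, hg]
      rw [← ENNReal.ofReal_mul (by positivity), ← ENNReal.ofReal_mul (by positivity)]
      refine ENNReal.ofReal_le_ofReal ?_
      have h4 := pow_le_pow_left₀ (norm_nonneg _) h3 2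
      rw [mul_pow] at h4
      calc C1 ^ 2 * ‖rsv m (Function.update (fun y => Y.1 (u y)) x 0) (dl 0) x‖ ^ 2
          ≤ C1 ^ 2 * (C1 ^ 2 * ‖rsv m (fun y => Y.1 (u y)) (dl 0) x‖ ^ 2) :=
            mul_le_mul_of_nonneg_left h4 (by positivity)
        _ = C1 ^ 4 * ‖rsv m (fun y => Y.1 (u y)) (dl 0) x‖ ^ 2 := by ring
    calc ∫⁻ u, F (u x) * G x u ∂(PP (Fin d → ℤ))
        ≤ ∫⁻ u, F (u x) * g u ∂(PP (Fin d → ℤ)) :=
          lintegral_mono fun u => mul_le_mul_right (hGg u) _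
      _ = (∫⁻ t, F t ∂lb) * ∫⁻ u, g u ∂(PP (Fin d → ℤ)) := lint_upd lb x F g hFm hgm hgx
      _ ≤ ENNReal.ofReal (τ ^ 2) * ∫⁻ u, ENNReal.ofReal (C1 ^ 4) * G x u ∂(PP (Fin d → ℤ)) :=
          mul_le_mul' (lint_cd hCay X Y τ hcd) (lintegral_mono hgG)
      _ = ENNReal.ofReal (C1 ^ 4 * τ ^ 2) * ∫⁻ u, G x u ∂(PP (Fin d → ℤ)) := by
          rw [lintegral_const_mul _ (hGm x), ← mul_assoc,
            ← ENNReal.ofReal_mul (by positivity)]
          congr 2
          ring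
  calc ∑' x, ∫⁻ u, F (u x) * G x u ∂(PP (Fin d → ℤ))
      ≤ ∑' x, ENNReal.ofReal (C1 ^ 4 * τ ^ 2) * ∫⁻ u, G x u ∂(PP (Fin d → ℤ)) :=
        ENNReal.tsum_le_tsum h2
    _ = ENNReal.ofReal (C1 ^ 4 * τ ^ 2) * ∫⁻ u, ∑' x, G x u ∂(PP (Fin d → ℤ)) := by
        rw [ENNReal.tsum_mul_left, lintegral_tsum fun x => (hGm x).aemeasurable]
    _ ≤ ENNReal.ofReal (C1 ^ 4 * τ ^ 2) * ∫⁻ _, ENNReal.ofReal ((1 / (1 - q)) ^ 2)
          ∂(PP (Fin d → ℤ)) := by
        refine mul_le_mul_right (lintegral_mono fun u => ?_) _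
        rw [← ofReal_sq]
        refine ENNReal.ofReal_le_ofReal (pow_le_pow_left₀ (norm_nonneg _) ?_ 2)
        have e1 := ContinuousLinearMap.le_opNorm (rsv m (fun y => Y.1 (u y))) (dl 0)
        rw [norm_dl, mul_one] at e1
        exact e1.trans (rsv_spec hS hq1 m hm _).1
    _ = ENNReal.ofReal ((τ * C1 ^ 2 / (1 - q)) ^ 2) := by
        rw [lintegral_const, measure_univ, mul_one, ← ENNReal.ofReal_mul (by positivity)]
        congr 1
        field_simp

/-- mean of the difference -/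
theorem mean_diff (hS : S_CSYM) (hO : S_OPR) (hD : S_DIA) (hCay : S_CAY) {q : ℝ} (hq0 : 0 ≤ q)
    (hq1 : q < 1) (X Y : MX) (τ : ℝ) (hτ : 0 ≤ τ) (hcd : cd X Y ≤ τ ^ 2) {d : ℕ}
    (m : C(UnitAddTorus (Fin d), ℂ)) (hm : ‖m‖ ≤ q)
    (hmeas : Measurable fun u : (Fin d → ℤ) → ℝ =>
      Zf m (fun x => cay (X.1 (u x))) - Zf m (fun x => cay (Y.1 (u x))))
    (C : ℝ) (hC : ∀ u : (Fin d → ℤ) → ℝ,
      ‖Zf m (fun x => cay (X.1 (u x))) - Zf m (fun x => cay (Y.1 (u x)))‖ ≤ C) :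
    ∫ u, ‖Zf m (fun x => cay (X.1 (u x))) - Zf m (fun x => cay (Y.1 (u x)))‖
      ∂(PP (Fin d → ℤ)) ≤ ((1 + q) / (1 - q)) ^ 2 / (1 - q) ^ 2 * τ := by
  have hq : 0 < 1 - q := by linarith
  set D : ((Fin d → ℤ) → ℝ) → ℝ := fun u =>
    ‖Zf m (fun x => cay (X.1 (u x))) - Zf m (fun x => cay (Y.1 (u x)))‖ with hDd
  have hDm : Measurable D := hmeas.norm
  have hD0 : ∀ u, 0 ≤ D u := fun u => norm_nonneg _
  have hi1 : Integrable D (PP (Fin d → ℤ)) :=
    Integrable.of_bound hDm.aestronglyMeasurable C (Filter.Eventually.of_forall fun u => by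
      rw [Real.norm_of_nonneg (hD0 u)]; exact hC u)
  have hi2 : Integrable (fun u => D u ^ 2) (PP (Fin d → ℤ)) :=
    Integrable.of_bound (hDm.pow_const 2).aestronglyMeasurable (C ^ 2)
      (Filter.Eventually.of_forall fun u => by
        rw [Real.norm_of_nonneg (by positivity)]
        exact pow_le_pow_left₀ (hD0 u) (hC u) 2)
  set A : ℝ := ((1 + q) / (1 - q)) ^ 2 / (1 - q) ^ 2 * τ with hA
  have hA0 : 0 ≤ A := by positivity
  have h1 : ∫ u, D u ^ 2 ∂(PP (Fin d → ℤ)) ≤ A ^ 2 := by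
    rw [integral_eq_lintegral_of_nonneg_ae (Filter.Eventually.of_forall fun u => by positivity)
      (hDm.pow_const 2).aestronglyMeasurable]
    refine ENNReal.toReal_le_of_le_ofReal (by positivity) ?_
    calc ∫⁻ u, ENNReal.ofReal (D u ^ 2) ∂(PP (Fin d → ℤ))
        ≤ ∫⁻ u, ENNReal.ofReal ((1 / (1 - q)) ^ 2) * ENNReal.ofReal
            (‖(dc (fun x => X.1 (u x)) - dc (fun x => Y.1 (u x)))
              (rsv m (fun x => Y.1 (u x)) (dl 0))‖ ^ 2) ∂(PP (Fin d → ℤ)) := by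
          refine lintegral_mono fun u => ?_
          rw [← ENNReal.ofReal_mul (by positivity), ← mul_pow]
          refine ENNReal.ofReal_le_ofReal (pow_le_pow_left₀ (hD0 u) ?_ 2)
          exact zf_diff hS hO hq1 m hm _ _
      _ = ENNReal.ofReal ((1 / (1 - q)) ^ 2) * ∫⁻ u, ENNReal.ofReal
            (‖(dc (fun x => X.1 (u x)) - dc (fun x => Y.1 (u x)))
              (rsv m (fun x => Y.1 (u x)) (dl 0))‖ ^ 2) ∂(PP (Fin d → ℤ)) :=
          lintegral_const_mul' _ _ ENNReal.ofReal_ne_top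
      _ ≤ ENNReal.ofReal ((1 / (1 - q)) ^ 2)
            * ENNReal.ofReal ((τ * ((1 + q) / (1 - q)) ^ 2 / (1 - q)) ^ 2) :=
          mul_le_mul_right (core hS hO hD hCay hq0 hq1 X Y τ hcd m hm) _
      _ = ENNReal.ofReal (A ^ 2) := by
          rw [← ENNReal.ofReal_mul (by positivity)]
          congr 1
          rw [hA]
          field_simp
  refine le_of_forall_pos_le_add fun ε hε => ?_
  have hAε : 0 < A + ε := by linarith
  have h2 : ∫ u, D u ∂(PP (Fin d → ℤ))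
      ≤ ∫ u, (D u ^ 2 / (2 * (A + ε)) + (A + ε) / 2) ∂(PP (Fin d → ℤ)) := by
    refine integral_mono hi1 ((hi2.div_const _).add (integrable_const _)) fun u => ?_
    have h3 : 0 ≤ (D u - (A + ε)) ^ 2 := sq_nonneg _
    have h4 : D u ^ 2 / (2 * (A + ε)) + (A + ε) / 2 - D u = (D u - (A + ε)) ^ 2 / (2 * (A + ε)) := by
      field_simp
      ring
    have h5 : 0 ≤ (D u - (A + ε)) ^ 2 / (2 * (A + ε)) := by positivity
    show D u ≤ D u ^ 2 / (2 * (A + ε)) + (A + ε) / 2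
    linarith
  rw [integral_add (hi2.div_const _) (integrable_const _), integral_div, integral_const] at h2
  simp only [probReal_univ, one_smul] at h2
  have h3 : (∫ u, D u ^ 2 ∂(PP (Fin d → ℤ))) / (2 * (A + ε)) ≤ (A + ε) / 2 := by
    rw [div_le_iff₀ (by positivity)]
    nlinarith
  linarith

theorem main : S_SYMB → S_CSYM → S_ZFW := by
  intro _ hS q hq0 hq1
  have hO : S_OPR := Pool.Agent.W918.LL.main
  have hD : S_DIA := Pool.Agent.W792.LL.DiaP.main
  have hCay : S_CAY := Pool.Agent.W335.LLCay.main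
  have hZ : S_ZF := Pool.Agent.W762.LL.main hO hD
  have hq : 0 < 1 - q := by linarith
  refine ⟨2 * (((1 + q) / (1 - q)) ^ 2 / (1 - q) ^ 2), by positivity, ?_⟩
  intro X Y τ hτ hcd d m m' hm hm'
  have hM : ∀ n : C(UnitAddTorus (Fin d), ℂ), ‖n‖ ≤ q →
      Measurable fun v : (Fin d → ℤ) → ℝ => Zf n (fun x => cay (v x)) :=
    fun n hn => Pool.Agent.W64.WAMzp.main d n q hq1 hn
  have hB : ∀ n : C(UnitAddTorus (Fin d), ℂ), ‖n‖ ≤ q → ∀ v : (Fin d → ℤ) → ℝ,
      ‖Zf n (fun x => cay (v x))‖ ≤ 1 / (1 - q) := fun n hn v =>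
    (hZ d n n (fun x => cay (v x)) q hq0 hq1 hn hn fun x => (hCay.1 (v x)).le).2.1
  have hmX : ∀ Z : MX, ∀ n : C(UnitAddTorus (Fin d), ℂ), ‖n‖ ≤ q →
      Measurable fun u : (Fin d → ℤ) → ℝ => Zf n (fun x => cay (Z.1 (u x))) :=
    fun Z n hn => (hM n hn).comp (meas_comp Z _)
  have hint : ∀ Z : MX, ∫ v, ‖Zf m (fun x => cay (v x)) - Zf m' (fun x => cay (v x))‖
        ∂(Pn (qlaw Z) (Fin d → ℤ))
      = ∫ u, ‖Zf m (fun x => cay (Z.1 (u x))) - Zf m' (fun x => cay (Z.1 (u x)))‖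
        ∂(PP (Fin d → ℤ)) := by
    intro Z
    rw [Pn_qlaw]
    have hms : Measurable fun v : (Fin d → ℤ) → ℝ =>
        ‖Zf m (fun x => cay (v x)) - Zf m' (fun x => cay (v x))‖ := ((hM m hm).sub (hM m' hm')).norm
    exact integral_map (μ := PP (Fin d → ℤ)) (meas_comp Z _).aemeasurable
      hms.aestronglyMeasurable
  rw [hint X, hint Y]
  have hbd : ∀ Z Z' : MX, ∀ n n' : C(UnitAddTorus (Fin d), ℂ), ‖n‖ ≤ q → ‖n'‖ ≤ q →
      ∀ u : (Fin d → ℤ) → ℝ,
      ‖Zf n (fun x => cay (Z.1 (u x))) - Zf n' (fun x => cay (Z'.1 (u x)))‖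
        ≤ 2 * (1 / (1 - q)) := by
    intro Z Z' n n' hn hn' u
    have e1 := hB n hn (fun x => Z.1 (u x))
    have e2 := hB n' hn' (fun x => Z'.1 (u x))
    calc _ ≤ ‖Zf n (fun x => cay (Z.1 (u x)))‖ + ‖Zf n' (fun x => cay (Z'.1 (u x)))‖ :=
          norm_sub_le _ _
      _ ≤ 2 * (1 / (1 - q)) := by linarith
  have hii : ∀ Z Z' : MX, ∀ n n' : C(UnitAddTorus (Fin d), ℂ), ‖n‖ ≤ q → ‖n'‖ ≤ q →
      Integrable (fun u : (Fin d → ℤ) → ℝ =>
        ‖Zf n (fun x => cay (Z.1 (u x))) - Zf n' (fun x => cay (Z'.1 (u x)))‖)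
        (PP (Fin d → ℤ)) := by
    intro Z Z' n n' hn hn'
    refine Integrable.of_bound (((hmX Z n hn).sub (hmX Z' n' hn')).norm).aestronglyMeasurable
      (2 * (1 / (1 - q))) (Filter.Eventually.of_forall fun u => ?_)
    rw [norm_norm]
    exact hbd Z Z' n n' hn hn' u
  have k1 := mean_diff hS hO hD hCay hq0 hq1 X Y τ hτ hcd m hm
    ((hmX X m hm).sub (hmX Y m hm)) _ (hbd X Y m m hm hm)
  have k2 := mean_diff hS hO hD hCay hq0 hq1 X Y τ hτ hcd m' hm'
    ((hmX X m' hm').sub (hmX Y m' hm')) _ (hbd X Y m' m' hm' hm')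
  have k3 : ∫ u, ‖Zf m (fun x => cay (X.1 (u x))) - Zf m' (fun x => cay (X.1 (u x)))‖
        ∂(PP (Fin d → ℤ))
      ≤ ∫ u, (‖Zf m (fun x => cay (Y.1 (u x))) - Zf m' (fun x => cay (Y.1 (u x)))‖
        + (‖Zf m (fun x => cay (X.1 (u x))) - Zf m (fun x => cay (Y.1 (u x)))‖
        + ‖Zf m' (fun x => cay (X.1 (u x))) - Zf m' (fun x => cay (Y.1 (u x)))‖))
        ∂(PP (Fin d → ℤ)) := by
    refine integral_mono (hii X X m m' hm hm')
      ((hii Y Y m m' hm hm').add ((hii X Y m m hm hm).add (hii X Y m' m' hm' hm'))) fun u => ?_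
    have e : Zf m (fun x => cay (X.1 (u x))) - Zf m' (fun x => cay (X.1 (u x)))
        = (Zf m (fun x => cay (Y.1 (u x))) - Zf m' (fun x => cay (Y.1 (u x))))
        + ((Zf m (fun x => cay (X.1 (u x))) - Zf m (fun x => cay (Y.1 (u x))))
        - (Zf m' (fun x => cay (X.1 (u x))) - Zf m' (fun x => cay (Y.1 (u x))))) := by ring
    show ‖Zf m (fun x => cay (X.1 (u x))) - Zf m' (fun x => cay (X.1 (u x)))‖ ≤ _
    rw [e]
    refine (norm_add_le _ _).trans ?_
    exact add_le_add le_rfl (norm_sub_le _ _)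
  have i23 : Integrable (fun u : (Fin d → ℤ) → ℝ =>
      ‖Zf m (fun x => cay (X.1 (u x))) - Zf m (fun x => cay (Y.1 (u x)))‖
      + ‖Zf m' (fun x => cay (X.1 (u x))) - Zf m' (fun x => cay (Y.1 (u x)))‖)
      (PP (Fin d → ℤ)) := (hii X Y m m hm hm).add (hii X Y m' m' hm' hm')
  rw [integral_add (hii Y Y m m' hm hm') i23,
    integral_add (hii X Y m m hm hm) (hii X Y m' m' hm' hm')] at k3
  linarith

end Pool.Agent.W304.WA.Zfw
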